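import Pool.Agent.N329.SD.Stm

/-!
# Project SD, part EQ2 (helper774): soundness and completeness of the system
-/

set_option autoImplicit false

namespace Pool.Agent.N774.SD

open Pool.Agent.N329.SD

lemma el_dl (n : ℕ) : el (dl n) = n := Denumerable.encode_ofNat n

lemma dl_el (s : List ℕ) : dl (el s) = s := Denumerable.ofNat_encode s

lemma length_le_el (s : List ℕ) : s.length ≤ el s := by
  induction s with
  | nil => simp [el]
  | cons a l ih =>
    unfold el at ih ⊢
    rw [Encodable.encode_list_cons, List.length_cons]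
    exact Nat.succ_le_succ (ih.trans (Nat.right_le_pair _ _))

lemma length_dl_le (n : ℕ) : (dl n).length ≤ n := by
  have := length_le_el (dl n)
  rwa [el_dl] at this

@[simp] lemma length_pre (x : ℕ → ℕ) (k : ℕ) : (pre x k).length = k := by simp [pre]

lemma pre_succ (x : ℕ → ℕ) (k : ℕ) : pre x (k + 1) = pre x k ++ [x k] := by
  simp [pre, List.range_succ]

lemma take_pre (x : ℕ → ℕ) {k m : ℕ} (h : k ≤ m) : (pre x m).take k = pre x k := by
  unfold pre
  rw [← List.map_take, List.take_range, min_eq_left h]

lemma pre_prefix (x : ℕ → ℕ) {k m : ℕ} (h : k ≤ m) : pre x k <+: pre x m := by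
  rw [← take_pre x h]
  exact List.take_prefix _ _

lemma exists_seq (L : ℕ → List ℕ) (c : ℕ) (h1 : ∀ n, (L n).length = c + n)
    (h2 : ∀ m n, m ≤ n → L m <+: L n) : ∃ z : ℕ → ℕ, ∀ n, L n = pre z (c + n) := by
  refine ⟨fun i => (L (i + 1)).getD i 0, fun n => ?_⟩
  apply List.ext_getElem
  · rw [h1, length_pre]
  · intro i hi hi'
    have h3 : i < (L (i + 1)).length := by rw [h1]; omega
    have h4 : i < (L (max n (i + 1))).length := by rw [h1]; omega
    have e1 : (L n)[i] = (L (max n (i + 1)))[i] :=
      List.IsPrefix.getElem (h2 n (max n (i + 1)) (le_max_left _ _)) hi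
    have e2 : (L (i + 1))[i] = (L (max n (i + 1)))[i] :=
      List.IsPrefix.getElem (h2 (i + 1) (max n (i + 1)) (le_max_right _ _)) h3
    rw [e1, ← e2]
    simp only [pre, List.getElem_map, List.getElem_range]
    exact (List.getD_eq_getElem _ _ h3).symm

/-- The relation of the sequences which are not yet excluded. -/
def rel (R : Set ℕ) (x y : ℕ → ℕ) (j i : ℕ) : Prop :=
  (∃ a, dl j = a :: dl i) ∧
    ∀ k ≤ (dl j).length, cd (pre x k) (pre y k) ((dl j).reverse.take k) ∉ R

lemma rel_wf (R : Set ℕ) (x y : ℕ → ℕ)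
    (h : ∀ z : ℕ → ℕ, ∃ k, cd (pre x k) (pre y k) (pre z k) ∈ R) : WellFounded (rel R x y) := by
  rw [wellFounded_iff_isEmpty_descending_chain]
  refine ⟨fun ⟨f, hf⟩ => ?_⟩
  have hs : ∀ n, ∃ a, (dl (f (n + 1))).reverse = (dl (f n)).reverse ++ [a] := by
    intro n
    obtain ⟨a, ha⟩ := (hf n).1
    exact ⟨a, by rw [ha, List.reverse_cons]⟩
  have h1 : ∀ n, ((dl (f n)).reverse).length = (dl (f 0)).length + n := by
    intro n
    induction n with
    | zero => simp
    | succ n ih =>
      obtain ⟨a, ha⟩ := hs n
      rw [ha, List.length_append, ih]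
      rfl
  have h2 : ∀ m n, m ≤ n → (dl (f m)).reverse <+: (dl (f n)).reverse := by
    intro m n hmn
    induction n, hmn using Nat.le_induction with
    | base => exact List.prefix_rfl
    | succ n _ ih =>
      obtain ⟨a, ha⟩ := hs n
      rw [ha]
      exact ih.trans (List.prefix_append _ _)
  obtain ⟨z, hz⟩ := exists_seq (fun n => (dl (f n)).reverse) (dl (f 0)).length h1 h2
  obtain ⟨k, hk⟩ := h z
  have h3 := (hf k).2 k (by
    have := h1 (k + 1)
    rw [List.length_reverse] at this
    omega)
  have h4 : (dl (f (k + 1))).reverse = pre z ((dl (f 0)).length + (k + 1)) := hz (k + 1)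
  rw [h4, take_pre z (by omega)] at h3
  exact h3 hk

theorem eq2 : S_EQ2 := by
  intro R
  constructor
  · intro x y h
    have hwf := rel_wf R x y h
    refine ⟨fun i => (hwf.apply i).rank, fun i j => ⟨?_, fun hq => ?_⟩⟩
    · simp only [EE, c4, Set.mem_ofPred_eq, Nat.unpair_pair, PE, ip, dl_el, length_pre, true_and]
      exact fun hij => ⟨pre_prefix x (by omega), pre_prefix y (by omega)⟩
    · simp only [QQ, c4, Set.mem_ofPred_eq, Nat.unpair_pair, PQ, ip, dl_el] at hq
      refine (hwf.apply i).rank_lt_of_rel (a := j) ⟨hq.1, fun k hk => ?_⟩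
      have h5 := hq.2 k hk
      have h6 := length_dl_le j
      rwa [take_pre x (by omega), take_pre y (by omega)] at h5
  · intro m α hr
    have hE : ∀ i j, PE i (m i) j (m j) := by
      intro i j
      have := (hr i j).1
      simpa only [EE, c4, Set.mem_ofPred_eq, Nat.unpair_pair] using this
    obtain ⟨x, hx⟩ := exists_seq (fun i => dl (m i).unpair.1) 1
      (fun n => by rw [(hE n n).1]; omega) (fun i j hij => ((hE i j).2.2.2.2 hij).1)
    obtain ⟨y, hy⟩ := exists_seq (fun i => dl (m i).unpair.2) 1
      (fun n => by rw [(hE n n).2.1]; omega) (fun i j hij => ((hE i j).2.2.2.2 hij).2)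
    have hx' : ∀ i, dl (m i).unpair.1 = pre x (i + 1) := fun i => by
      rw [add_comm]; exact hx i
    have hy' : ∀ i, dl (m i).unpair.2 = pre y (i + 1) := fun i => by
      rw [add_comm]; exact hy i
    refine ⟨x, y, ?_, ?_⟩
    · funext i
      unfold ip
      rw [← hx' i, ← hy' i, el_dl, el_dl, Nat.pair_unpair]
    · intro z
      by_contra hc
      push Not at hc
      have hlt : ∀ n, α (el (pre z (n + 1)).reverse) < α (el (pre z n).reverse) := by
        intro n
        refine (hr (el (pre z n).reverse) (el (pre z (n + 1)).reverse)).2 ?_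
        simp only [QQ, c4, Set.mem_ofPred_eq, Nat.unpair_pair, PQ, dl_el]
        refine ⟨⟨z n, by rw [pre_succ, List.reverse_append]; rfl⟩, fun k hk => ?_⟩
        have h7 := length_le_el (pre z (n + 1)).reverse
        rw [List.length_reverse, length_pre] at h7 hk
        rw [hx', hy', List.reverse_reverse, take_pre x (by omega), take_pre y (by omega),
          take_pre z hk]
        exact hc k
      have hwf : WellFounded ((· < ·) : Ordinal.{0} → Ordinal.{0} → Prop) := wellFounded_lt
      rw [wellFounded_iff_isEmpty_descending_chain] at hwf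
      exact hwf.false ⟨fun n => α (el (pre z n).reverse), hlt⟩

end Pool.Agent.N774.SD
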