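import Pool.Agent.N329.SD.StmL
import Pool.Agent.R597.Fold

/-!
# Project SD, part KD (helper774): the set of finite partial runs is constructible
-/

set_option autoImplicit false
set_option linter.unreachableTactic false
set_option linter.unusedTactic false

namespace Pool.Agent.N774.SD

open Pool.Agent.N329.SD Pool.Agent.W868 Pool.Agent.W868.GM Pool.Agent.R597
open ZFSet (pair)

/-! ### The set of the entries of a finite sequence -/

/-- One step of the recursion. -/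
noncomputable def G0 (r a : ZFSet.{0}) : ZFSet.{0} :=
  pair (insert (fs r) (fs r)) (insert (pair (fs r) a) (sn r))

/-- The length and the set of the entries with their indices. -/
noncomputable def F0 : ZFSet.{0} → ZFSet.{0} := fold G0 (pair ∅ ∅)

/-- The set of the entries with their indices. -/
noncomputable def ents (t : ZFSet.{0}) : ZFSet.{0} := sn (F0 t)

lemma F0_seq (f : ℕ → ZFSet.{0}) (n : ℕ) : fs (F0 (seq f n)) = nat n ∧
    ∀ z, z ∈ sn (F0 (seq f n)) ↔ ∃ k < n, z = pair (nat k) (f k) := by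
  induction n with
  | zero =>
    have h : F0 (seq f 0) = pair ∅ ∅ := fold_empty _ _
    rw [h, fs_pair, sn_pair]
    exact ⟨rfl, fun z => ⟨fun hz => absurd hz (ZFSet.notMem_empty _), fun ⟨k, hk, _⟩ => by omega⟩⟩
  | succ n ih =>
    have h : F0 (seq f (n + 1)) = G0 (F0 (seq f n)) (f n) := fold_pair _ _ _ _
    rw [h]
    unfold G0
    rw [fs_pair, sn_pair, ih.1]
    refine ⟨rfl, fun z => ?_⟩
    rw [ZFSet.mem_insert_iff, ih.2]
    constructor
    · rintro (hz | ⟨k, hk, hz⟩)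
      · exact ⟨n, by omega, hz⟩
      · exact ⟨k, by omega, hz⟩
    · rintro ⟨k, hk, hz⟩
      rcases Nat.lt_succ_iff_lt_or_eq.1 hk with h4 | rfl
      · exact Or.inr ⟨k, h4, hz⟩
      · exact Or.inl hz

lemma mem_ents {f : ℕ → ZFSet.{0}} {n : ℕ} {z : ZFSet.{0}} :
    z ∈ ents (seq f n) ↔ ∃ k < n, z = pair (nat k) (f k) := (F0_seq f n).2 z

lemma dfn_ents {M : Set ZFSet.{0}} (hM : IsZF M) {n : ℕ} {F : (Fin n → ZFSet.{0}) → ZFSet.{0}}
    (hF : DfnF M M F) : DfnF M M fun v => ents (F v) := by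
  have hB := hM.base
  have h0 := hM.empty_mem
  have h1 : DfnF M M fun w : Fin 1 → ZFSet.{0} => F0 (w 0) := by
    refine dfn_fold hM (hM.pair_mem h0 h0) ?_
    unfold G0
    exact hB.pair' (hB.insert' (hM.fs' (DfnF.proj 0)) (hM.fs' (DfnF.proj 0)))
      (hB.insert' (hB.pair' (hM.fs' (DfnF.proj 0)) (DfnF.proj 1)) (hM.sn' (DfnF.proj 0)))
  exact hM.sn' (DfnF.comp1 (f := F0) h1 hF)

/-! ### Numbers of pairs -/

lemma mem_zs {S : Set ℕ} {n : ℕ} : nat n ∈ zs S ↔ n ∈ S := by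
  unfold zs
  rw [ZFSet.mem_sep]
  constructor
  · rintro ⟨-, m, hm, h⟩
    rwa [nat_injective h]
  · exact fun h => ⟨nat_mem_omega n, n, h, rfl⟩

lemma mem_gp {f : ℕ →. ℕ} {a b : ℕ} :
    pair (nat a) (nat b) ∈ Pool.Agent.N329.SD.gp f ↔ b ∈ f a := by
  unfold Pool.Agent.N329.SD.gp
  rw [ZFSet.mem_sep]
  constructor
  · rintro ⟨-, a', b', h, h'⟩
    obtain ⟨h1, h2⟩ := ZFSet.pair_inj.1 h'
    rwa [nat_injective h1, nat_injective h2]
  · exact fun h => ⟨ZFSet.pair_mem_prod.2 ⟨nat_mem_omega a, nat_mem_omega b⟩, a, b, h, rfl⟩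

/-- The graph of the first component. -/
noncomputable def gL0 : ZFSet.{0} :=
  Pool.Agent.N329.SD.gp ((fun n : ℕ => n.unpair.1 : ℕ → ℕ) : ℕ →. ℕ)

/-- The graph of the second component. -/
noncomputable def gR0 : ZFSet.{0} :=
  Pool.Agent.N329.SD.gp ((fun n : ℕ => n.unpair.2 : ℕ → ℕ) : ℕ →. ℕ)

lemma cod_iff {x i m : ℕ} : (pair (nat x) (nat i) ∈ gL0 ∧ pair (nat x) (nat m) ∈ gR0) ↔
    x = Nat.pair i m := by
  unfold gL0 gR0
  rw [mem_gp, mem_gp, PFun.coe_val, PFun.coe_val, Part.mem_some_iff, Part.mem_some_iff]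
  constructor
  · rintro ⟨rfl, rfl⟩
    exact (Nat.pair_unpair x).symm
  · rintro rfl
    simp [Nat.unpair_pair]

/-- The condition on two entries. -/
def Phi (gL gR zE zQ u v : ZFSet.{0}) : Prop :=
  ∃ x ∈ (ZFSet.omega : ZFSet.{0}), ∃ y ∈ (ZFSet.omega : ZFSet.{0}),
    ∃ z ∈ (ZFSet.omega : ZFSet.{0}), (pair x (fs u) ∈ gL ∧ pair x (fs (sn u)) ∈ gR) ∧
    (pair y (fs v) ∈ gL ∧ pair y (fs (sn v)) ∈ gR) ∧ (pair z x ∈ gL ∧ pair z y ∈ gR) ∧
    z ∈ zE ∧ (z ∈ zQ → sn (sn v) ∈ sn (sn u))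

/-- The condition on one entry. -/
def Psi (gL gR zD q u : ZFSet.{0}) : Prop :=
  ∃ y ∈ (ZFSet.omega : ZFSet.{0}), ∃ z ∈ (ZFSet.omega : ZFSet.{0}),
    (pair y (fs u) ∈ gL ∧ pair y (fs (sn u)) ∈ gR) ∧ (pair z q ∈ gL ∧ pair z y ∈ gR) ∧ z ∈ zD

lemma dfn_Phi {M : Set ZFSet.{0}} (hM : IsZF M) {gL gR zE zQ : ZFSet.{0}} (hL : gL ∈ M)
    (hR : gR ∈ M) (hE : zE ∈ M) (hQ : zQ ∈ M) :
    Dfn M M fun w : Fin 2 → ZFSet.{0} => Phi gL gR zE zQ (w 0) (w 1) := by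
  have hB := hM.base
  have hω := hM.infinity
  unfold Phi
  (repeat' first
      | assumption
      | exact DfnF.proj _
      | exact DfnF.const (by assumption)
      | exact Dfn.prop _
      | apply Dfn.not | apply Dfn.and | apply Dfn.or | apply Dfn.imp | apply Dfn.iff
      | apply hB.bex | apply hB.ball | apply Dfn.ex | apply Dfn.all
      | apply Dfn.eq | apply Dfn.mem | apply hB.pair' | apply hM.fs' | apply hM.sn')

lemma dfn_Psi {M : Set ZFSet.{0}} (hM : IsZF M) {gL gR zD : ZFSet.{0}} (hL : gL ∈ M)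
    (hR : gR ∈ M) (hD : zD ∈ M) :
    Dfn M M fun w : Fin 2 → ZFSet.{0} => Psi gL gR zD (w 0) (w 1) := by
  have hB := hM.base
  have hω := hM.infinity
  unfold Psi
  (repeat' first
      | assumption
      | exact DfnF.proj _
      | exact DfnF.const (by assumption)
      | exact Dfn.prop _
      | apply Dfn.not | apply Dfn.and | apply Dfn.or | apply Dfn.imp | apply Dfn.iff
      | apply hB.bex | apply hB.ball | apply Dfn.ex | apply Dfn.all
      | apply Dfn.eq | apply Dfn.mem | apply hB.pair' | apply hM.fs' | apply hM.sn')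

lemma sep_KD_mem {M : Set ZFSet.{0}} (hM : IsZF M) {gL gR zE zQ zD X : ZFSet.{0}} (hL : gL ∈ M)
    (hR : gR ∈ M) (hE : zE ∈ M) (hQ : zQ ∈ M) (hD : zD ∈ M) (hX : X ∈ M) :
    ZFSet.sep (fun p => (∀ u ∈ ents (sn p), ∀ v ∈ ents (sn p), Phi gL gR zE zQ u v) ∧
      ∀ u ∈ ents (sn p), Psi gL gR zD (fs p) u) X ∈ M := by
  have hB := hM.base
  refine hM.sep_mem (Q := fun p => (∀ u ∈ ents (sn p), ∀ v ∈ ents (sn p),
    Phi gL gR zE zQ u v) ∧ ∀ u ∈ ents (sn p), Psi gL gR zD (fs p) u) ?_ hX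
  refine Dfn.and ?_ ?_
  · apply hB.ball (dfn_ents hM (hM.sn' (DfnF.proj 0)))
    apply hB.ball (dfn_ents hM (hM.sn' (DfnF.proj 1)))
    exact Dfn.comp2 (Q := Phi gL gR zE zQ) (dfn_Phi hM hL hR hE hQ) (DfnF.proj 1) (DfnF.proj 0)
  · apply hB.ball (dfn_ents hM (hM.sn' (DfnF.proj 0)))
    exact Dfn.comp2 (Q := Psi gL gR zD) (dfn_Psi hM hL hR hD) (hM.fs' (DfnF.proj 1)) (DfnF.proj 0)

lemma phi_iff {E Q : Set ℕ} {i m j n : ℕ} {a b : Ordinal.{0}} :
    Phi gL0 gR0 (zs E) (zs Q) (pair (nat i) (pair (nat m) a.toZFSet))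
      (pair (nat j) (pair (nat n) b.toZFSet)) ↔
      c4 i m j n ∈ E ∧ (c4 i m j n ∈ Q → b < a) := by
  unfold Phi c4
  simp only [fs_pair, sn_pair, Ordinal.toZFSet_mem_toZFSet_iff]
  constructor
  · rintro ⟨x, hx, y, hy, z, hz, h1, h2, h3, h4, h5⟩
    obtain ⟨x, rfl⟩ := mem_omega_iff.1 hx
    obtain ⟨y, rfl⟩ := mem_omega_iff.1 hy
    obtain ⟨z, rfl⟩ := mem_omega_iff.1 hz
    rw [cod_iff] at h1 h2 h3
    subst h1 h2 h3
    rw [mem_zs] at h4 h5
    exact ⟨h4, h5⟩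
  · rintro ⟨h4, h5⟩
    refine ⟨_, nat_mem_omega (Nat.pair i m), _, nat_mem_omega (Nat.pair j n), _,
      nat_mem_omega (Nat.pair (Nat.pair i m) (Nat.pair j n)), cod_iff.2 rfl, cod_iff.2 rfl,
      cod_iff.2 rfl, mem_zs.2 h4, fun h => h5 (mem_zs.1 h)⟩

lemma psi_iff {D : Set ℕ} {q i m : ℕ} {a : ZFSet.{0}} :
    Psi gL0 gR0 (zs D) (nat q) (pair (nat i) (pair (nat m) a)) ↔
      Nat.pair q (Nat.pair i m) ∈ D := by
  unfold Psi
  simp only [fs_pair, sn_pair]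
  constructor
  · rintro ⟨y, hy, z, hz, h2, h3, h4⟩
    obtain ⟨y, rfl⟩ := mem_omega_iff.1 hy
    obtain ⟨z, rfl⟩ := mem_omega_iff.1 hz
    rw [cod_iff] at h2 h3
    subst h2 h3
    rwa [mem_zs] at h4
  · intro h4
    exact ⟨_, nat_mem_omega (Nat.pair i m), _, nat_mem_omega (Nat.pair q (Nat.pair i m)),
      cod_iff.2 rfl, cod_iff.2 rfl, mem_zs.2 h4⟩

lemma lab_eq {m m' : ℕ → ℕ} {α α' : ℕ → Ordinal.{0}} {k : ℕ} (h : lab m α k = lab m' α' k) :
    m k = m' k ∧ α k = α' k := by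
  obtain ⟨h1, h2⟩ := ZFSet.pair_inj.1 h
  exact ⟨nat_injective h1, Ordinal.toZFSet_injective h2⟩

lemma KD_eq (E Q D : Set ℕ) (κ : Ordinal.{0}) : KD E Q D κ =
    ZFSet.sep (fun p => (∀ u ∈ ents (sn p), ∀ v ∈ ents (sn p),
      Phi gL0 gR0 (zs E) (zs Q) u v) ∧ ∀ u ∈ ents (sn p), Psi gL0 gR0 (zs D) (fs p) u)
      (ZFSet.prod ZFSet.omega (Sq (Wl κ))) := by
  ext p
  unfold KD
  rw [ZFSet.mem_sep, ZFSet.mem_sep]
  refine and_congr_right fun hp => ?_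
  obtain ⟨q, hq, t, ht, rfl⟩ := ZFSet.mem_prod.1 hp
  obtain ⟨q, rfl⟩ := mem_omega_iff.1 hq
  obtain ⟨f, n, hf, rfl⟩ := exists_seq ht
  have h1 : ∀ k, ∃ (m : ℕ) (a : Ordinal.{0}), k < n → f k = pair (nat m) a.toZFSet := by
    intro k
    by_cases hk : k < n
    · obtain ⟨x, hx, y, hy, h⟩ := ZFSet.mem_prod.1 (hf k hk)
      obtain ⟨m, rfl⟩ := mem_omega_iff.1 hx
      obtain ⟨a, -, rfl⟩ := Ordinal.mem_toZFSet_iff.1 hy
      exact ⟨m, a, fun _ => h⟩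
    · exact ⟨0, 0, fun h => absurd h hk⟩
  choose m α h2 using h1
  have h3 : seq f n = seq (lab m α) n := seq_congr fun k hk => h2 k hk
  rw [h3, fs_pair, sn_pair]
  have h4 : (∃ (q' n' : ℕ) (m' : ℕ → ℕ) (α' : ℕ → Ordinal.{0}),
      pair (nat q) (seq (lab m α) n) = pair (nat q') (seq (lab m' α') n') ∧
      (∀ i < n', ∀ j < n', c4 i (m' i) j (m' j) ∈ E ∧
        (c4 i (m' i) j (m' j) ∈ Q → α' j < α' i)) ∧
      ∀ k < n', Nat.pair q' (Nat.pair k (m' k)) ∈ D) ↔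
      (∀ i < n, ∀ j < n, c4 i (m i) j (m j) ∈ E ∧
        (c4 i (m i) j (m j) ∈ Q → α j < α i)) ∧
      ∀ k < n, Nat.pair q (Nat.pair k (m k)) ∈ D := by
    constructor
    · rintro ⟨q', n', m', α', h, h5, h6⟩
      obtain ⟨h7, h8⟩ := ZFSet.pair_inj.1 h
      obtain ⟨rfl, h9⟩ := seq_inj h8
      have h10 := nat_injective h7
      subst h10
      have h11 : ∀ k < n, m k = m' k ∧ α k = α' k := fun k hk => lab_eq (h9 k hk)
      refine ⟨fun i hi j hj => ?_, fun k hk => ?_⟩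
      · rw [(h11 i hi).1, (h11 i hi).2, (h11 j hj).1, (h11 j hj).2]
        exact h5 i hi j hj
      · rw [(h11 k hk).1]
        exact h6 k hk
    · rintro ⟨h5, h6⟩
      exact ⟨q, n, m, α, rfl, h5, h6⟩
  rw [h4]
  refine and_congr ?_ ?_
  · constructor
    · intro h u hu v hv
      obtain ⟨i, hi, rfl⟩ := mem_ents.1 hu
      obtain ⟨j, hj, rfl⟩ := mem_ents.1 hv
      exact phi_iff.2 (h i hi j hj)
    · intro h i hi j hj
      exact phi_iff.1 (h _ (mem_ents.2 ⟨i, hi, rfl⟩) _ (mem_ents.2 ⟨j, hj, rfl⟩))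
  · constructor
    · intro h u hu
      obtain ⟨i, hi, rfl⟩ := mem_ents.1 hu
      exact psi_iff.2 (h i hi)
    · intro h i hi
      exact psi_iff.1 (h _ (mem_ents.2 ⟨i, hi, rfl⟩))

/-- The set of finite partial runs is constructible. -/
theorem kd : S_KD := by
  intro hPR E Q D hE hQ hD κ
  have hM : IsZF Lcls := isZFC_L.1.toIsZF
  have hκ : κ.toZFSet ∈ Lcls := isZFC_L.2 _ (ZFSet.isOrdinal_toZFSet κ)
  have hL : gL0 ∈ Lcls := hPR _ hM _ Nat.Partrec.left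
  have hR : gR0 ∈ Lcls := hPR _ hM _ Nat.Partrec.right
  rw [KD_eq]
  exact sep_KD_mem hM hL hR hE hQ hD
    (hM.prod_mem hM.infinity (Sq_mem hM (hM.prod_mem hM.infinity hκ)))

end Pool.Agent.N774.SD
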